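import Mathlib
import Pool.Agent.TH841.AL.Stm

/-!
# Project AL, piece CP: compactness
-/

set_option autoImplicit false

namespace Pool.Agent.TH383.AL

open Pool.Agent.TH841.AL

/-- the closed set of approximate primitive solutions -/
def KS (p : ℕ) [Fact p.Prime] (A B b d : ℤ) (k : ℕ) : Set (ℤ_[p] × ℤ_[p] × ℤ_[p] × ℤ_[p]) :=
  {z | (‖z.1‖ = 1 ∨ ‖z.2.1‖ = 1 ∨ ‖z.2.2.1‖ = 1 ∨ ‖z.2.2.2‖ = 1) ∧
    ‖(b : ℤ_[p]) * z.1 ^ 2 - A * z.2.1 ^ 2 - d * z.2.2.1 ^ 2‖ ≤ (p : ℝ) ^ (-(k : ℤ)) ∧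
    ‖(b : ℤ_[p]) * z.1 ^ 2 - B * z.2.1 ^ 2 - b * d * z.2.2.2 ^ 2‖ ≤ (p : ℝ) ^ (-(k : ℤ))}

theorem KS_closed (p : ℕ) [Fact p.Prime] (A B b d : ℤ) (k : ℕ) : IsClosed (KS p A B b d k) := by
  unfold KS
  have h1 : Continuous fun z : ℤ_[p] × ℤ_[p] × ℤ_[p] × ℤ_[p] => ‖z.1‖ := by fun_prop
  have h2 : Continuous fun z : ℤ_[p] × ℤ_[p] × ℤ_[p] × ℤ_[p] => ‖z.2.1‖ := by fun_prop
  have h3 : Continuous fun z : ℤ_[p] × ℤ_[p] × ℤ_[p] × ℤ_[p] => ‖z.2.2.1‖ := by fun_prop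
  have h4 : Continuous fun z : ℤ_[p] × ℤ_[p] × ℤ_[p] × ℤ_[p] => ‖z.2.2.2‖ := by fun_prop
  have h5 : Continuous fun z : ℤ_[p] × ℤ_[p] × ℤ_[p] × ℤ_[p] =>
      ‖(b : ℤ_[p]) * z.1 ^ 2 - A * z.2.1 ^ 2 - d * z.2.2.1 ^ 2‖ := by fun_prop
  have h6 : Continuous fun z : ℤ_[p] × ℤ_[p] × ℤ_[p] × ℤ_[p] =>
      ‖(b : ℤ_[p]) * z.1 ^ 2 - B * z.2.1 ^ 2 - b * d * z.2.2.2 ^ 2‖ := by fun_prop
  refine IsClosed.inter ?_ (IsClosed.inter (isClosed_le h5 continuous_const)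
    (isClosed_le h6 continuous_const))
  exact (isClosed_eq h1 continuous_const).union ((isClosed_eq h2 continuous_const).union
    ((isClosed_eq h3 continuous_const).union (isClosed_eq h4 continuous_const)))

theorem KS_anti (p : ℕ) [hp : Fact p.Prime] (A B b d : ℤ) (k : ℕ) :
    KS p A B b d (k + 1) ⊆ KS p A B b d k := by
  have h : (p : ℝ) ^ (-((k + 1 : ℕ) : ℤ)) ≤ (p : ℝ) ^ (-(k : ℤ)) := by
    apply zpow_le_zpow_right₀
    · exact_mod_cast hp.out.one_lt.le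
    · push_cast; linarith
  rintro z ⟨h1, h2, h3⟩
  exact ⟨h1, h2.trans h, h3.trans h⟩

theorem norm_nat_one (p : ℕ) [hp : Fact p.Prime] {m : ℕ} (h : ¬ p ∣ m) : ‖(m : ℤ_[p])‖ = 1 := by
  have h1 : ¬ ‖((m : ℤ) : ℤ_[p])‖ < 1 := by
    rw [PadicInt.norm_int_lt_one_iff_dvd]
    exact_mod_cast h
  have h2 := PadicInt.norm_le_one ((m : ℤ) : ℤ_[p])
  have h3 : ‖((m : ℤ) : ℤ_[p])‖ = 1 := le_antisymm h2 (not_lt.1 h1)
  simpa using h3

theorem KS_nonempty (p : ℕ) [hp : Fact p.Prime] (A B b d : ℤ) (k : ℕ)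
    (h : ModSol A B b d (p ^ (k + 1))) : (KS p A B b d k).Nonempty := by
  obtain ⟨M, e, x, y, -, -, -, -, hg, h1, h2⟩ := h
  refine ⟨((M : ℤ_[p]), (e : ℤ_[p]), (x : ℤ_[p]), (y : ℤ_[p])), ?_, ?_, ?_⟩
  · by_contra hcon
    push Not at hcon
    obtain ⟨a1, a2, a3, a4⟩ := hcon
    have b1 : p ∣ M := by by_contra hh; exact a1 (norm_nat_one p hh)
    have b2 : p ∣ e := by by_contra hh; exact a2 (norm_nat_one p hh)
    have b3 : p ∣ x := by by_contra hh; exact a3 (norm_nat_one p hh)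
    have b4 : p ∣ y := by by_contra hh; exact a4 (norm_nat_one p hh)
    have b5 : p ∣ p ^ (k + 1) := dvd_pow_self p (Nat.succ_ne_zero k)
    have : p ∣ 1 := by
      rw [← hg]
      exact Nat.dvd_gcd (Nat.dvd_gcd b1 b2) (Nat.dvd_gcd (Nat.dvd_gcd b3 b4) b5)
    exact hp.out.one_lt.ne' (Nat.dvd_one.1 this)
  · have h3 : ((p : ℤ) ^ k) ∣ b * M ^ 2 - A * e ^ 2 - d * x ^ 2 :=
      (pow_dvd_pow (p : ℤ) (Nat.le_succ k)).trans (by exact_mod_cast h1)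
    have h4 := (PadicInt.norm_int_le_pow_iff_dvd (p := p)
      (k := (b * M ^ 2 - A * e ^ 2 - d * x ^ 2 : ℤ)) (n := k)).2 (by exact_mod_cast h3)
    push_cast at h4
    exact h4
  · have h3 : ((p : ℤ) ^ k) ∣ b * M ^ 2 - B * e ^ 2 - b * d * y ^ 2 :=
      (pow_dvd_pow (p : ℤ) (Nat.le_succ k)).trans (by exact_mod_cast h2)
    have h4 := (PadicInt.norm_int_le_pow_iff_dvd (p := p)
      (k := (b * M ^ 2 - B * e ^ 2 - b * d * y ^ 2 : ℤ)) (n := k)).2 (by exact_mod_cast h3)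
    push_cast at h4
    exact h4

theorem eq_zero_of_small (p : ℕ) [hp : Fact p.Prime] {u : ℤ_[p]}
    (h : ∀ k : ℕ, ‖u‖ ≤ (p : ℝ) ^ (-(k : ℤ))) : u = 0 := by
  have h1 : (1 : ℝ) < p := by exact_mod_cast hp.out.one_lt
  have h2 : Filter.Tendsto (fun k : ℕ => (p : ℝ) ^ (-(k : ℤ))) Filter.atTop (nhds 0) := by
    have : (fun k : ℕ => (p : ℝ) ^ (-(k : ℤ))) = fun k : ℕ => ((p : ℝ)⁻¹) ^ k := by
      funext k
      rw [zpow_neg, zpow_natCast, inv_pow]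
    rw [this]
    exact tendsto_pow_atTop_nhds_zero_of_lt_one (by positivity) (inv_lt_one_of_one_lt₀ h1)
  have h3 : ‖u‖ ≤ 0 := ge_of_tendsto' h2 h
  exact norm_le_zero_iff.1 h3

theorem cp : CP := by
  intro p hp A B b d hb hd hC
  by_contra hk
  push Not at hk
  have hne := IsCompact.nonempty_iInter_of_sequence_nonempty_isCompact_isClosed
    (KS p A B b d) (KS_anti p A B b d) (fun k => KS_nonempty p A B b d k (hk (k + 1)))
    (KS_closed p A B b d 0).isCompact (KS_closed p A B b d)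
  obtain ⟨⟨M, e, x, y⟩, hz⟩ := hne
  rw [Set.mem_iInter] at hz
  have e1 : (b : ℤ_[p]) * M ^ 2 - A * e ^ 2 - d * x ^ 2 = 0 :=
    eq_zero_of_small p fun k => (hz k).2.1
  have e2 : (b : ℤ_[p]) * M ^ 2 - B * e ^ 2 - b * d * y ^ 2 = 0 :=
    eq_zero_of_small p fun k => (hz k).2.2
  have hb' : (b : ℤ_[p]) ≠ 0 := by exact_mod_cast hb
  have hd' : (d : ℤ_[p]) ≠ 0 := by exact_mod_cast hd
  have hMe : M ≠ 0 ∨ e ≠ 0 := by
    by_contra hcon
    push Not at hcon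
    obtain ⟨hM, he⟩ := hcon
    subst hM he
    have hx : x = 0 := by
      have : (d : ℤ_[p]) * x ^ 2 = 0 := by linear_combination -e1
      rcases mul_eq_zero.1 this with h | h
      · exact absurd h hd'
      · exact pow_eq_zero_iff two_ne_zero |>.1 h
    have hy : y = 0 := by
      have : (b : ℤ_[p]) * d * y ^ 2 = 0 := by linear_combination -e2
      rcases mul_eq_zero.1 this with h | h
      · exact absurd h (mul_ne_zero hb' hd')
      · exact pow_eq_zero_iff two_ne_zero |>.1 h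
    subst hx hy
    have := (hz 0).1
    simp at this
  apply hC
  refine ⟨(M : ℚ_[p]), (e : ℚ_[p]), (x : ℚ_[p]), (y : ℚ_[p]), ?_, ?_, ?_⟩
  · rcases hMe with h | h
    · left; exact fun h' => h (PadicInt.ext h')
    · right; exact fun h' => h (PadicInt.ext h')
  · have := congrArg (fun u : ℤ_[p] => (u : ℚ_[p])) e1
    push_cast at this
    linear_combination this
  · have := congrArg (fun u : ℤ_[p] => (u : ℚ_[p])) e2
    push_cast at this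
    linear_combination this

end Pool.Agent.TH383.AL
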